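import Mathlib
import Pool.Agent.H.MP_3fdae4_co.Cls

namespace Pool.Agent.Results.MP_3fdae4_co.Third

open Pool.Agent.H.MP_3fdae4_co Finset Matrix

/-- Closed vertex multiplication of the 6-cycle by `[a, b, a, b, a, b]`. -/
def H (a b : ℕ) : SimpleGraph (Σ k : Fin 6, Fin (if k.val % 2 = 0 then a else b)) :=
  SimpleGraph.fromRel (fun u v => u.1 = v.1 ∨ (SimpleGraph.cycleGraph 6).Adj u.1 v.1)

lemma quad {V : Type} [Fintype V] (A : Matrix V V ℝ) (v0 v1 v2 : V → ℝ) (m0 m1 m2 a0 a1 a2 : ℝ)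
    (e0 : A *ᵥ v0 = m0 • v0) (e1 : A *ᵥ v1 = m1 • v1) (e2 : A *ᵥ v2 = m2 • v2)
    (n00 : v0 ⬝ᵥ v0 = 1) (n11 : v1 ⬝ᵥ v1 = 1) (n22 : v2 ⬝ᵥ v2 = 1)
    (n01 : v0 ⬝ᵥ v1 = 0) (n02 : v0 ⬝ᵥ v2 = 0) (n12 : v1 ⬝ᵥ v2 = 0) :
    (a0 • v0 + a1 • v1 + a2 • v2) ⬝ᵥ (A *ᵥ (a0 • v0 + a1 • v1 + a2 • v2))
      = a0 ^ 2 * m0 + a1 ^ 2 * m1 + a2 ^ 2 * m2 := by
  simp only [mulVec_add, mulVec_smul, e0, e1, e2, add_dotProduct, dotProduct_add, smul_dotProduct,
    dotProduct_smul, smul_eq_mul, n00, n11, n22, n01, n02, n12, dotProduct_comm v1 v0,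
    dotProduct_comm v2 v0, dotProduct_comm v2 v1]
  ring

lemma dot3 {V : Type} [Fintype V] (v0 v1 v2 : V → ℝ) (a0 a1 a2 b0 b1 b2 : ℝ)
    (n00 : v0 ⬝ᵥ v0 = 1) (n11 : v1 ⬝ᵥ v1 = 1) (n22 : v2 ⬝ᵥ v2 = 1)
    (n01 : v0 ⬝ᵥ v1 = 0) (n02 : v0 ⬝ᵥ v2 = 0) (n12 : v1 ⬝ᵥ v2 = 0) :
    (a0 • v0 + a1 • v1 + a2 • v2) ⬝ᵥ (b0 • v0 + b1 • v1 + b2 • v2)
      = a0 * b0 + a1 * b1 + a2 * b2 := by
  simp only [add_dotProduct, dotProduct_add, smul_dotProduct,
    dotProduct_smul, smul_eq_mul, n00, n11, n22, n01, n02, n12, dotProduct_comm v1 v0,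
    dotProduct_comm v2 v0, dotProduct_comm v2 v1]
  ring

theorem result (V : Type) [Fintype V] [DecidableEq V] (G : SimpleGraph V) [DecidableRel G.Adj]
    (hn : 3 ≤ Fintype.card V)
    (h3 : (G.isHermitian_adjMatrix ℝ).eigenvalues₀ ⟨2, hn⟩ = (Fintype.card V : ℝ) / 3 - 1) :
    ∃ a b : ℕ, Nonempty (G ≃g H a b) := by
  set hA := G.isHermitian_adjMatrix ℝ
  set e : Fin (Fintype.card V) ≃ V := Fintype.equivOfCardEq (Fintype.card_fin _) with he
  have ev : ∀ t, hA.eigenvalues (e t) = hA.eigenvalues₀ t := fun t => by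
    simp [IsHermitian.eigenvalues, he]
  have ort : ∀ t u : V, (hA.eigenvectorBasis t).ofLp ⬝ᵥ (hA.eigenvectorBasis u).ofLp
      = if t = u then 1 else 0 := by
    intro t u
    have := orthonormal_iff_ite.1 hA.eigenvectorBasis.orthonormal t u
    rw [EuclideanSpace.inner_eq_star_dotProduct] at this
    rw [dotProduct_comm]
    simpa using this
  set i0 := e ⟨0, by omega⟩
  set i1 := e ⟨1, by omega⟩
  set i2 := e ⟨2, hn⟩
  have d01 : i0 ≠ i1 := fun h => by simpa using e.injective h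
  have d02 : i0 ≠ i2 := fun h => by simpa using e.injective h
  have d12 : i1 ≠ i2 := fun h => by simpa using e.injective h
  have e0 := hA.mulVec_eigenvectorBasis i0
  have e1 := hA.mulVec_eigenvectorBasis i1
  have e2 := hA.mulVec_eigenvectorBasis i2
  have n00 := ort i0 i0
  have n11 := ort i1 i1
  have n22 := ort i2 i2
  have n01 := ort i0 i1
  have n02 := ort i0 i2
  have n12 := ort i1 i2
  simp only [d01, d02, d12, if_true, if_false] at n00 n11 n22 n01 n02 n12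
  have m0 : (Fintype.card V : ℝ) / 3 - 1 ≤ hA.eigenvalues i0 := by
    rw [ev, ← h3]; exact hA.eigenvalues₀_antitone (Fin.mk_le_mk.2 (by norm_num))
  have m1 : (Fintype.card V : ℝ) / 3 - 1 ≤ hA.eigenvalues i1 := by
    rw [ev, ← h3]; exact hA.eigenvalues₀_antitone (Fin.mk_le_mk.2 (by norm_num))
  have m2 : (Fintype.card V : ℝ) / 3 - 1 ≤ hA.eigenvalues i2 := by
    rw [ev, ← h3]
  generalize (hA.eigenvectorBasis i0).ofLp = v0 at *
  generalize (hA.eigenvectorBasis i1).ofLp = v1 at *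
  generalize (hA.eigenvectorBasis i2).ofLp = v2 at *
  obtain ⟨a0, a1, a2, b0, b1, b2, p1, p2, p3, p4, p5⟩ := two_perp (∑ i, v0 i) (∑ i, v1 i) (∑ i, v2 i)
  have qx := quad _ v0 v1 v2 _ _ _ a0 a1 a2 e0 e1 e2 n00 n11 n22 n01 n02 n12
  have qy := quad _ v0 v1 v2 _ _ _ b0 b1 b2 e0 e1 e2 n00 n11 n22 n01 n02 n12
  have xx := dot3 v0 v1 v2 a0 a1 a2 a0 a1 a2 n00 n11 n22 n01 n02 n12
  have yy := dot3 v0 v1 v2 b0 b1 b2 b0 b1 b2 n00 n11 n22 n01 n02 n12
  have xy := dot3 v0 v1 v2 a0 a1 a2 b0 b1 b2 n00 n11 n22 n01 n02 n12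
  have sx : ∑ i, (a0 • v0 + a1 • v1 + a2 • v2) i = 0 := by
    simp only [Pi.add_apply, Pi.smul_apply, smul_eq_mul, sum_add_distrib, ← mul_sum]; exact p4
  have sy : ∑ i, (b0 • v0 + b1 • v1 + b2 • v2) i = 0 := by
    simp only [Pi.add_apply, Pi.smul_apply, smul_eq_mul, sum_add_distrib, ← mul_sum]; exact p5
  generalize a0 • v0 + a1 • v1 + a2 • v2 = x at *
  generalize b0 • v0 + b1 • v1 + b2 • v2 = y at *
  have hx : (Fintype.card V : ℝ) / 3 - 1 ≤ x ⬝ᵥ (G.adjMatrix ℝ *ᵥ x) := by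
    rw [qx]
    linear_combination mul_le_mul_of_nonneg_left m0 (sq_nonneg a0) +
      mul_le_mul_of_nonneg_left m1 (sq_nonneg a1) + mul_le_mul_of_nonneg_left m2 (sq_nonneg a2)
      - ((Fintype.card V : ℝ) / 3 - 1) * p1
  have hy : (Fintype.card V : ℝ) / 3 - 1 ≤ y ⬝ᵥ (G.adjMatrix ℝ *ᵥ y) := by
    rw [qy]
    linear_combination mul_le_mul_of_nonneg_left m0 (sq_nonneg b0) +
      mul_le_mul_of_nonneg_left m1 (sq_nonneg b1) + mul_le_mul_of_nonneg_left m2 (sq_nonneg b2)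
      - ((Fintype.card V : ℝ) / 3 - 1) * p2
  have xx' : x ⬝ᵥ x = 1 := by rw [xx]; linear_combination p1
  have yy' : y ⬝ᵥ y = 1 := by rw [yy]; linear_combination p2
  have : Nonempty V := ⟨i0⟩
  obtain ⟨k, a, b, hk, hB⟩ := struct x y (fun i j => i = j ∨ G.Adj i j) sx sy
    (by rw [← xx']; exact sum_congr rfl fun i _ => sq _)
    (by rw [← yy']; exact sum_congr rfl fun i _ => sq _) (by rw [← p3, ← xy]; rfl) (by
      have : (∑ i, ∑ j, if (i = j ∨ G.Adj i j) then x i * x j + y i * y j else 0)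
          = x ⬝ᵥ (G.adjMatrix ℝ *ᵥ x) + y ⬝ᵥ (G.adjMatrix ℝ *ᵥ y) + x ⬝ᵥ x + y ⬝ᵥ y := by
        simp only [dotProduct, mulVec, mul_sum, ← sum_add_distrib]
        refine sum_congr rfl fun i _ => ?_
        have t1 : x i * x i = ∑ j, if i = j then x i * x j else 0 := by simp
        have t2 : y i * y i = ∑ j, if i = j then y i * y j else 0 := by simp
        rw [t1, t2, ← sum_add_distrib, ← sum_add_distrib]
        refine sum_congr rfl fun j _ => ?_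
        by_cases h : i = j
        · subst h; simp
        · by_cases h' : G.Adj i j <;> simp [h, h']
      rw [this]
      linarith)
  let f : V ≃ Σ l : Fin 6, Fin (if l.val % 2 = 0 then a else b) :=
    (Equiv.sigmaFiberEquiv k).symm.trans (Equiv.sigmaCongrRight fun l =>
      Fintype.equivFinOfCardEq (by rw [Fintype.card_subtype, hk l]))
  have hf : ∀ v, (f v).1 = k v := fun v => rfl
  refine ⟨a, b, ⟨⟨f, ?_⟩⟩⟩
  intro u v
  simp only [H, SimpleGraph.fromRel_adj, hf, ← hB, ne_eq, EmbeddingLike.apply_eq_iff_eq]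
  constructor
  · rintro ⟨hne, (h | h) | (h | h)⟩
    · exact absurd h hne
    · exact h
    · exact absurd h.symm hne
    · exact h.symm
  · intro h
    exact ⟨h.ne, Or.inl (Or.inr h)⟩

end Pool.Agent.Results.MP_3fdae4_co.Third
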